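import Pool.Agent.Helper84.OWN.Cwh

/-!
# MP_3dcd8c_gt: a zero-dimensional metacompact sL-cwH space which is not para-Lindelöf
-/

set_option autoImplicit false

universe u

namespace Pool.Agent.Results.MP_3dcd8c_gt.ZeroDimensional

open Set Topology Cardinal Pool.Agent.Helper84.OWN

/-- There is a regular `T₁` space `X` with a base of clopen sets with the following properties.
Every open cover has an open refinement such that every point lies in at most three members (so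
`X` is metacompact).  For every discrete family of closed Lindelöf sets there are pairwise disjoint
open sets which contain them (`X` is sL-cwH), and this holds even for discrete families of closed
sets all of whose open covers have subcovers of at most continuum many members (`LC`).  There is an
open cover such that for every open refinement there is a point all of whose neighbourhoods meet
more than continuum many members of the refinement (so `X` is not para-Lindelöf). -/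
theorem result : ∃ (X : Type) (_ : TopologicalSpace X), T3Space X ∧
    (∀ (x : X) (U : Set X), IsOpen U → x ∈ U → ∃ W : Set X, IsClopen W ∧ x ∈ W ∧ W ⊆ U) ∧
    (∀ 𝒰 : Set (Set X), (∀ U ∈ 𝒰, IsOpen U) → ⋃₀ 𝒰 = Set.univ →
      ∃ 𝒱 : Set (Set X), (∀ V ∈ 𝒱, IsOpen V) ∧ ⋃₀ 𝒱 = Set.univ ∧ (∀ V ∈ 𝒱, ∃ U ∈ 𝒰, V ⊆ U) ∧
        ∀ x : X, {V | V ∈ 𝒱 ∧ x ∈ V}.encard ≤ 3) ∧
    (∀ (S : Type u) (F : S → Set X), (∀ s, IsClosed (F s) ∧ IsLindelof (F s)) →
      (∀ x : X, ∃ N ∈ 𝓝 x, {s | (F s ∩ N).Nonempty}.Subsingleton) →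
      ∃ U : S → Set X, (∀ s, IsOpen (U s) ∧ F s ⊆ U s) ∧ ∀ s t, s ≠ t → Disjoint (U s) (U t)) ∧
    (∀ (S : Type u) (F : S → Set X), (∀ s, IsClosed (F s) ∧ LC (F s)) →
      (∀ x : X, ∃ N ∈ 𝓝 x, {s | (F s ∩ N).Nonempty}.Subsingleton) →
      ∃ U : S → Set X, (∀ s, IsOpen (U s) ∧ F s ⊆ U s) ∧ ∀ s t, s ≠ t → Disjoint (U s) (U t)) ∧
    ∃ 𝒰 : Set (Set X), (∀ U ∈ 𝒰, IsOpen U) ∧ ⋃₀ 𝒰 = Set.univ ∧
      ∀ 𝒱 : Set (Set X), (∀ V ∈ 𝒱, IsOpen V) → ⋃₀ 𝒱 = Set.univ → (∀ V ∈ 𝒱, ∃ U ∈ 𝒰, V ⊆ U) →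
        ∃ x : X, ∀ N ∈ 𝓝 x, continuum < #{V : Set X | V ∈ 𝒱 ∧ (V ∩ N).Nonempty} := by
  obtain ⟨K, I, instI, J, instJ, f, hK, hI, hJ, hinit, hmono, hcof⟩ :=
    Pool.Agent.Helper58.Cwh.exists_scale
  have hinj := Pool.Agent.Helper58.Cwh.injective_of_mono hmono
  have hLC : ∀ (S : Type u) (F : S → Set (Pool.Agent.Helper58.Cwh.Pt K f)),
      (∀ s, IsClosed (F s) ∧ LC (F s)) →
      (∀ x, ∃ N ∈ 𝓝 x, {s | (F s ∩ N).Nonempty}.Subsingleton) →
      ∃ U : S → Set (Pool.Agent.Helper58.Cwh.Pt K f), (∀ s, IsOpen (U s) ∧ F s ⊆ U s) ∧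
        ∀ s t, s ≠ t → Disjoint (U s) (U t) := fun S F hF hd =>
    to_indexed (P := fun F => IsClosed F ∧ LC F)
      (fun 𝓕 h𝓕 hd => slcwhLC hK hI hJ hinit hmono hcof 𝓕 h𝓕 hd) S F hF hd
  exact ⟨Pool.Agent.Helper58.Cwh.Pt K f, inferInstance, Pool.Agent.Helper58.Cwh.t3 hinj,
    fun x U hU hx => clopen_base hinj x U hU hx, fun 𝒰 hU hc => meta3 hinj 𝒰 hU hc,
    fun S F hF hd => hLC S F (fun s => ⟨(hF s).1, IsLindelof.lc (hF s).2⟩) hd, hLC,
    bad_cover hK hI hJ hinit hmono⟩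

end Pool.Agent.Results.MP_3dcd8c_gt.ZeroDimensional
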